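import Mathlib
import Pool.Agent.T2H03.HX.Cx
import Pool.Agent.T2H04.HY.GDefs

/-!
# Hierarchical Yang-Mills theory in four dimensions: definitions
-/

open MeasureTheory Matrix Filter
open scoped Matrix.Norms.Frobenius Topology
open Pool.Agent.T2H03.HX (Cx sq Bx hol blkL blks pos ex Obs)
open Pool.Agent.T2H04.HY (URep wa tau)

namespace Pool.Agent.T2H04.YM

noncomputable section

variable {G : Type} [Group G] [TopologicalSpace G] {N : ℕ} [MeasurableSpace G] (μ : Measure G)

/-- The Boltzmann factor of a plaquette for the action `V` and the bare coupling `1 / β`. -/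
def boltz (V : G → ℝ) (β : ℝ) (x : G) : ℝ := Real.exp (-(β * V x))

/-- The mean value of `χ` at the holonomy around the boundary of the box of side `2 ^ q`, for the
lattice gauge theory in this box with the plaquette function `w`. -/
def loopMean (w : G → ℝ) (q : ℕ) (χ : G → ℝ) : ℝ :=
  ex μ (Bx (0 + q)) w fun U => χ (hol sq (blks sq 0 q U) ())

/-- The same in infinite volume. -/
def loopInf (S : (n : ℕ) → (((Bx n).E → G) → ℝ) → ℝ) (q : ℕ) (χ : G → ℝ) : ℝ :=
  S (0 + q) fun U => χ (hol sq (blks sq 0 q U) ())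

/-- The renormalised coupling `g²` at the scale `2 ^ q`; `n` is the dimension of the group and
`wa R x = Re tr (1 - R.rho x)`. -/
def coupling (R : URep G N) (n : ℕ) (w : G → ℝ) (q : ℕ) : ℝ := 2 / n * loopMean μ w q (wa R)

/-- The largest value of `E` on the class functions orthogonal to the constant functions and of `L²`
norm at most one. -/
def largest (E : (G → ℝ) → ℝ) : ℝ :=
  sSup {r | ∃ χ : G → ℝ, Continuous χ ∧ (∀ x y, χ (y * x * y⁻¹) = χ x) ∧ ∫ x, χ x ∂μ = 0 ∧
    ∫ x, χ x ^ 2 ∂μ ≤ 1 ∧ r = E χ}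

/-- `t` is the string tension: the exponential rate of decay in the area `4 ^ q` for the loops of side
`2 ^ q`. -/
def Tension (E : ℕ → (G → ℝ) → ℝ) (t : ℝ) : Prop :=
  Tendsto (fun q : ℕ => -(Real.log (largest μ (E q))) / 4 ^ q) atTop (𝓝 t)

/-- The lattice gauge theory with the plaquette function `w` has the infinite volume limit `S`, a mass
gap and an area law: `S n A` is the mean value of the observable `A` in a box of side `2 ^ n`. -/
structure Massive (w : G → ℝ) (S : (n : ℕ) → (((Bx n).E → G) → ℝ) → ℝ) (C c : ℝ) : Prop where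
  /-- infinite volume limit of the box at an arbitrary position `x` in an arbitrary face `g` of an
  arbitrary complex `X` -/
  vol : ∀ n A, Obs (Bx n) A → ∀ (X : Cx) (g : X.F) x m, |ex μ (X.refs (n + m + 1)) w
    (fun U => A (U ∘ ((X.face g).refs (n + m + 1)).e ∘ pos n x (m + 1))) - S n A| ≤
      C * Real.exp (-(c * 4 ^ (n + m)))
  /-- mass gap: two boxes of side `2 ^ n`, in different parts of the box of side `2 ^ (n + m + 1)` -/
  gap : ∀ n A B, Obs (Bx n) A → Obs (Bx n) B → ∀ x y m, x m ≠ y m →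
    |S (n + m + 1) (fun U => A (U ∘ pos n x (m + 1)) * B (U ∘ pos n y (m + 1))) - S n A * S n B| ≤
      C * Real.exp (-(c * 4 ^ (n + m)))
  /-- area law for the loops of side `2 ^ q` and all class functions -/
  area : ∀ q (χ : G → ℝ), Continuous χ → (∀ x y, χ (y * x * y⁻¹) = χ x) → (∀ x, |χ x| ≤ 1) →
    ∫ x, χ x ∂μ = 0 → |loopInf S q χ| ≤ C * Real.exp (-(c * 4 ^ q))

/-- The continuum theories. `f s` is the plaquette function of the effective lattice theory with the
lattice spacing `2 ^ s`, and `S s` is this lattice theory in infinite volume. For fixed `s` the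
lattice theories `s + k`, `k : ℤ`, are the effective theories of one continuum theory. -/
structure Theory (R : URep G N) (n : ℕ) (ca : ℝ) (f : ℝ → G → ℝ)
    (S : ℝ → (n : ℕ) → (((Bx n).E → G) → ℝ) → ℝ) : Prop where
  cont : ∀ s, Continuous (f s)
  pos : ∀ s x, 0 < f s x
  cls : ∀ s x y, f s (y * x * y⁻¹) = f s x
  inv : ∀ s x, f s x⁻¹ = f s x
  int : ∀ s, ∫ x, f s x ∂μ = 1
  /-- `f (s + q)` gives the distribution of the holonomies along the edges of length `2 ^ q` lattice
  spacings -/
  exact : ∀ (s : ℝ) (X : Cx) (m q : ℕ) (A : ((X.refs m).E → G) → ℝ), Continuous A →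
    ex μ (X.refs (m + q)) (f s) (fun U => A (blks X m q U)) = ex μ (X.refs m) (f (s + q)) A
  /-- the same in infinite volume -/
  cons : ∀ s n A, Obs (Bx n) A → S s (n + 1) (fun U => A (blkL n sq U)) = S (s + 1) n A
  /-- continuity in `s` -/
  lim : ∀ (s : ℝ) (ss : ℕ → ℝ), Tendsto ss atTop (𝓝 s) →
    TendstoUniformly (fun i => f (ss i)) (f s) atTop
  /-- mass gap and area law, uniformly in the lattice spacing -/
  mass : ∃ C c : ℝ, 0 < C ∧ 0 < c ∧ ∀ s, Massive μ (f s) (S s) C (c * 4 ^ s)
  /-- asymptotic freedom: the renormalised coupling at the scale `2 ^ (-x)`, up to two loops -/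
  free : ∃ K : ℝ, ∀ x : ℝ, K ≤ x →
    |1 / coupling μ R n (f (-x)) 0 - (ca / 8 * x + ca / 30 * Real.log x)| ≤ K
  /-- at large scales the effective theories tend to the strong coupling fixed point -/
  strong : ∃ C c : ℝ, 0 < C ∧ 0 < c ∧ ∀ s : ℝ, 0 ≤ s → ∀ x,
    |f s x - 1| ≤ C * Real.exp (-(c * 4 ^ s))
  /-- every coupling below that of the strong coupling fixed point is the one at some scale -/
  onto : ∀ κ, 0 < κ → κ < coupling μ R n (fun _ => 1) 0 → ∃ s, coupling μ R n (f s) 0 = κ

/-- `σ s` is the string tension in the units of the lattice spacing `2 ^ s`. -/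
structure Confining (R : URep G N) (f : ℝ → G → ℝ)
    (S : ℝ → (n : ℕ) → (((Bx n).E → G) → ℝ) → ℝ) (σ : ℝ → ℝ) : Prop where
  pos : ∀ s, 0 < σ s
  cont : Continuous σ
  step : ∀ s, σ (s + 1) = 4 * σ s
  /-- for the loop which bounds the volume -/
  fin : ∀ s, Tension μ (loopMean μ (f s)) (σ s)
  /-- in infinite volume -/
  inf : ∀ s, Tension μ (loopInf (S s)) (σ s)
  /-- area law for the Wilson loop in the representation `R` -/
  loop : ∀ s, ∃ t : ℝ, 0 < t ∧ Tendsto (fun q : ℕ => -(Real.log (loopMean μ (f s) q (fun x =>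
    (trace (R.rho x)).re) - ∫ x, (trace (R.rho x)).re ∂μ)) / 4 ^ q) atTop (𝓝 t)

/-- The lattice gauge theories with the action `V` are massive and confining for all bare couplings
`1 / β`, and the theories `f, S, σ` are their ultraviolet limit, with asymptotic scaling: the lattice
spacing is `2 ^ (-tau ca δ β)` up to a factor which tends to one. `σV β` is the string tension. -/
structure Limit (R : URep G N) (n : ℕ) (ca κ₁ : ℝ) (f : ℝ → G → ℝ)
    (S : ℝ → (n : ℕ) → (((Bx n).E → G) → ℝ) → ℝ) (σ : ℝ → ℝ) (V : G → ℝ) (δ : ℝ)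
    (σV : ℝ → ℝ) : Prop where
  ten : ∀ β, 0 < β → 0 < σV β ∧ Tension μ (loopMean μ (boltz V β)) (σV β)
  mass : ∀ β, 0 < β → ∃ SV C c, 0 < C ∧ 0 < c ∧ Massive μ (boltz V β) SV C c ∧
    Tension μ (loopInf SV) (σV β)
  /-- asymptotic scaling of the string tension -/
  scal : Tendsto (fun β => σV β / σ (-tau ca δ β)) atTop (𝓝 1)
  /-- the renormalised coupling at the scale `k` of the lattice theory with the bare coupling `1 / β`
  is asymptotic to the one of the continuum theory at the scale `k - tau ca δ β`, as `β` and `k` tend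
  to infinity in an arbitrary way -/
  coup : Tendsto (fun p : ℝ × ℕ => coupling μ R n (boltz V p.1) p.2 /
    coupling μ R n (f (p.2 - tau ca δ p.1)) 0) (atTop ×ˢ atTop) (𝓝 1)
  /-- the ultraviolet limit of the theories with the lattice spacing `2 ^ s`, obtained by `k j` steps
  from the bare coupling `1 / β j`, in finite volume -/
  lim : ∀ (β : ℕ → ℝ) (k : ℕ → ℕ) (s : ℝ), (∀ j, 0 < β j) → Tendsto β atTop atTop →
    Tendsto (fun j => (k j : ℝ) - tau ca δ (β j)) atTop (𝓝 s) →
    ∀ (X : Cx) (m : ℕ) (A : ((X.refs m).E → G) → ℝ), Continuous A →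
      Tendsto (fun j => ex μ (X.refs (m + k j)) (boltz V (β j)) fun U => A (blks X m (k j) U))
        atTop (𝓝 (ex μ (X.refs m) (f s) A))
  /-- and in infinite volume: the joint limit of the lattice spacing and of the volume -/
  lim_inf : ∀ (β : ℕ → ℝ) (k : ℕ → ℕ) (s : ℝ), (∀ j, 0 < β j) → Tendsto β atTop atTop →
    Tendsto (fun j => (k j : ℝ) - tau ca δ (β j)) atTop (𝓝 s) →
    ∀ (m : ℕ) (A : ((Bx m).E → G) → ℝ), Obs (Bx m) A → ∀ x,
      Tendsto (fun p : ℕ × ℕ => ex μ (Bx (m + p.2 + k p.1)) (boltz V (β p.1)) fun U =>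
        A (blks sq (m + p.2) (k p.1) U ∘ pos m x p.2)) (atTop ×ˢ atTop) (𝓝 (S s m A))
  /-- the same limits are obtained by tuning the bare coupling to a renormalised coupling `κ` -/
  tune : ∀ (κ s : ℝ), 0 < κ → κ ≤ κ₁ → coupling μ R n (f s) 0 = κ → ∀ (β : ℕ → ℝ) (k : ℕ → ℕ),
    (∀ j, 0 < β j) → Tendsto β atTop atTop →
    Tendsto (fun j => coupling μ R n (boltz V (β j)) (k j)) atTop (𝓝 κ) →
    Tendsto (fun j => (k j : ℝ) - tau ca δ (β j)) atTop (𝓝 s)

end

end Pool.Agent.T2H04.YM
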