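import Mathlib
import Pool.Agent.T2H03.HX.Conf
import Pool.Agent.T2H03.HX.Env
import Pool.Agent.T2H03.HX.Loop
import Pool.Agent.T2H04.YM.Defs

/-!
# The infinite volume theories: mass gap, area law and string tension
-/

open MeasureTheory Matrix Filter
open scoped Topology
open Pool.Agent.T2H03 Pool.Agent.T2H04
open Pool.Agent.T2H03.HX (Cx sq Bx hol blkL blks pos ex Obs li nr Tail DD)
open Pool.Agent.T2H04.HY (mk PD)

namespace Pool.Agent.T2H04.YM

set_option linter.unusedSectionVars false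

noncomputable section

variable {G : Type} [Group G] [TopologicalSpace G] [IsTopologicalGroup G] [CompactSpace G]
  [SecondCountableTopology G] [MeasurableSpace G] [BorelSpace G] (μ : Measure G)
  [IsProbabilityMeasure μ] [μ.IsHaarMeasure]

/-- the infinite volume theory with the plaquette function `w` -/
def SW (w : G → ℝ) (n : ℕ) (A : ((Bx n).E → G) → ℝ) : ℝ := li μ ((mk μ)^[n] w) (nr μ w n A)

variable {μ}

theorem nr_blks {w : G → ℝ} (hw : PD μ w) (hc : ∀ x y, w (y * x * y⁻¹) = w x) (q : ℕ)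
    (A : (sq.E → G) → ℝ) :
    nr μ w (0 + q) (fun U => A (blks sq 0 q U)) = nr μ ((mk μ)^[q] w) 0 A := by
  induction q generalizing w with
  | zero => rfl
  | succ q ih =>
    have h1 := HX.nr_blk hw hc (0 + q) (fun U : (Bx (0 + q)).E → G => A (blks sq 0 q U))
    rw [Function.iterate_succ_apply, ← ih (HY.pd_mk μ w hw) (HY.Asm.mk_cls μ hc)]
    exact h1

theorem loopInf_SW {w : G → ℝ} (hw : PD μ w) (hc : ∀ x y, w (y * x * y⁻¹) = w x) (q : ℕ)
    (χ : G → ℝ) : loopInf (SW μ w) q χ =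
      li μ ((mk μ)^[q] w) (nr μ ((mk μ)^[q] w) 0 fun U => χ (hol sq U ())) := by
  unfold loopInf SW
  rw [nr_blks hw hc q (fun U => χ (hol sq U ())), zero_add]
  rfl

theorem massive_of {w : G → ℝ} {C σ : ℝ} {k : ℤ} (t : Tail μ w C σ k) (hw : ∀ x, 0 < w x)
    (hpos : ∀ i x, 0 < (mk μ)^[i] w x) {C' c : ℝ} (hC' : 4 * DD C σ + C ≤ C')
    (hc : c ≤ σ * (4 : ℝ) ^ k) : Massive μ w (SW μ w) C' c := by
  have hD := HX.DD_pos t.c0 t.s0
  have hC0 := t.c0
  have hpow : ∀ i : ℕ, Real.exp (-(σ * (4 : ℝ) ^ (k + i))) ≤ Real.exp (-(c * 4 ^ i)) := by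
    intro i
    refine Real.exp_le_exp.2 (neg_le_neg ?_)
    rw [zpow_add₀ (by norm_num), zpow_natCast, ← mul_assoc]
    exact mul_le_mul_of_nonneg_right hc (by positivity)
  have hE : ∀ i : ℕ, 0 < Real.exp (-(σ * (4 : ℝ) ^ (k + i))) := fun i => Real.exp_pos _
  refine ⟨?_, ?_, ?_⟩
  · intro n A hA X g x m
    have h1 := HX.env t hw hpos hA X g x m
    have e : k + (n : ℤ) + m = k + ((n + m : ℕ) : ℤ) := by push_cast; ring
    rw [e] at h1
    exact h1.trans (mul_le_mul (by linarith) (hpow _) (hE _).le (by linarith))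
  · intro n A B hA hB x y m hxy
    have h1 := HX.cluster t hA hB x y m hxy
    have e : k + (n : ℤ) + m = k + ((n + m : ℕ) : ℤ) := by push_cast; ring
    rw [e] at h1
    exact h1.trans (mul_le_mul (by linarith) (hpow _) (hE _).le (by linarith))
  · intro q χ hχ hcc h1 h0
    rw [loopInf_SW t.pd t.cls]
    have h2 := HX.wilson (t.shift q) hχ hcc h1 h0
    exact h2.trans (mul_le_mul (by linarith) (hpow _) (hE _).le (by linarith))

theorem massive_scale {w : G → ℝ} {S : (n : ℕ) → (((Bx n).E → G) → ℝ) → ℝ} {C c a : ℝ}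
    (ha : a ≠ 0) (h : Massive μ (fun x => a * w x) S C c) : Massive μ w S C c := by
  refine ⟨?_, h.gap, h.area⟩
  intro n A hA X g x m
  have h1 := h.vol n A hA X g x m
  rwa [HX.ex_scale μ _ w ha] at h1

/-- **The string tension in infinite volume.** -/
theorem conf_fwd {w : G → ℝ} {C σ : ℝ} (t : Tail μ w C σ 0) {s : ℝ} (hs : 0 < s)
    (he : Tendsto (fun k : ℕ => -Real.log (HX.e2 μ ((mk μ)^[k] w)) / (2 * 4 ^ k)) atTop (𝓝 s)) :
    Tension μ (loopInf (SW μ w)) s := by
  obtain ⟨f, hf⟩ : ∃ f : ℕ → G → ℝ, f = fun k => (mk μ)^[k] w := ⟨_, rfl⟩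
  have hfk : ∀ k, (mk μ)^[k] w = f k := fun k => by rw [hf]
  have hpd : ∀ k, PD μ (f k) := fun k => by rw [hf]; exact HY.Asm.iter_pd μ t.pd k
  have hcls : ∀ k x y, f k (y * x * y⁻¹) = f k x := fun k => by
    rw [hf]; exact HY.Asm.iter_cls μ t.cls k
  have hmk : ∀ k, mk μ (f k) = f (k + 1) := fun k => by
    rw [hf]; simp only [Function.iterate_succ_apply']
  have tk : ∀ k : ℕ, Tail μ (f k) C σ (0 + k) := fun k => by
    have := t.shift k
    rwa [hfk] at this
  set a : ℕ → ℝ := fun k => -Real.log (HX.e2 μ (f k)) / (2 * 4 ^ k) with ha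
  set c : ℕ → ℝ := fun k => HX.conf μ fun χ => li μ (f k) (nr μ (f k) 0 fun U => χ (hol sq U ()))
    with hcdef
  have he : Tendsto a atTop (𝓝 s) := he.congr fun k => by rw [ha, hfk]
  have key : Tendsto (fun k : ℕ => -Real.log (c k) / 4 ^ k) atTop (𝓝 s) := by
    have hpow : Tendsto (fun k : ℕ => (4 : ℝ) ^ k) atTop atTop :=
      tendsto_pow_atTop_atTop_of_one_lt (by norm_num)
    -- positivity
    have hpos : ∀ᶠ k : ℕ in atTop, 0 < HX.e2 μ (f k) := by
      filter_upwards [he.eventually (lt_mem_nhds hs)] with k hk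
      rcases (HX.e2_nonneg (μ := μ) (f k)).eq_or_lt with h0 | h0
      · exfalso
        rw [ha] at hk
        simp only at hk
        rw [← h0, Real.log_zero, neg_zero, zero_div] at hk
        exact lt_irrefl _ hk
      · exact h0
    have hexp : ∀ᶠ k : ℕ in atTop, HX.e2 μ (f k) = Real.exp (-(2 * (4 ^ k * a k))) := by
      filter_upwards [hpos] with k hk
      have h1 : -(2 * (4 ^ k * a k)) = Real.log (HX.e2 μ (f k)) := by
        rw [ha]
        field_simp
      rw [h1, Real.exp_log hk]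
    have hinf : Tendsto (fun k : ℕ => 4 ^ k * a k) atTop atTop := hpow.atTop_mul_pos hs he
    have hzero : Tendsto (fun k : ℕ => HX.e2 μ (f k)) atTop (𝓝 0) := by
      have h1 : Tendsto (fun k : ℕ => Real.exp (-(2 * (4 ^ k * a k)))) atTop (𝓝 0) :=
        Real.tendsto_exp_neg_atTop_nhds_zero.comp (hinf.const_mul_atTop two_pos)
      exact h1.congr' (hexp.mono fun k hk => hk.symm)
    -- the ratio
    set q : ℕ → ℝ := fun k => 5 * (9 * HX.e2 μ (f k) ^ 2) ^ 2 / Real.sqrt (HX.e2 μ (f (k + 1)))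
      with hq
    have hqz : Tendsto q atTop (𝓝 0) := by
      have h1 : ∀ᶠ k : ℕ in atTop, q k =
          405 * Real.exp (-(4 ^ (k + 1) * (2 * a k - a (k + 1)))) := by
        filter_upwards [hexp, (tendsto_add_atTop_nat 1).eventually hexp] with k h2 h3
        have h4 : Real.sqrt (HX.e2 μ (f (k + 1))) = Real.exp (-(4 ^ (k + 1) * a (k + 1))) := by
          rw [h3]
          have h5 : -(2 * ((4 : ℝ) ^ (k + 1) * a (k + 1))) =
              -(4 ^ (k + 1) * a (k + 1)) + -(4 ^ (k + 1) * a (k + 1)) := by ring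
          rw [h5, Real.exp_add, Real.sqrt_mul_self (Real.exp_pos _).le]
        rw [hq]
        simp only
        rw [h4, h2, div_eq_iff (Real.exp_pos _).ne', mul_assoc 405, ← Real.exp_add]
        have h6 : (5 : ℝ) * (9 * Real.exp (-(2 * (4 ^ k * a k))) ^ 2) ^ 2 =
            405 * Real.exp (-(2 * (4 ^ k * a k))) ^ 4 := by ring
        rw [h6, ← Real.exp_nat_mul]
        congr 2
        push_cast
        ring
      have h2 : Tendsto (fun k : ℕ => 2 * a k - a (k + 1)) atTop (𝓝 s) := by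
        have h3 := (he.const_mul 2).sub ((tendsto_add_atTop_iff_nat 1).2 he)
        have h4 : 2 * s - s = s := by ring
        rwa [h4] at h3
      have h3 : Tendsto (fun k : ℕ => (4 : ℝ) ^ (k + 1) * (2 * a k - a (k + 1))) atTop atTop :=
        (hpow.comp (tendsto_add_atTop_nat 1)).atTop_mul_pos hs h2
      have h4 := (Real.tendsto_exp_neg_atTop_nhds_zero.comp h3).const_mul 405
      rw [mul_zero] at h4
      exact h4.congr' (h1.mono fun k hk => hk.symm)
    -- the bounds
    have hb : ∀ᶠ k : ℕ in atTop, |c (k + 1) / Real.sqrt (HX.e2 μ (f (k + 1))) - 1| ≤ q k := by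
      have h1 := hzero.eventually (gt_mem_nhds (show (0 : ℝ) < 1 / 9 by norm_num))
      filter_upwards [h1, (tendsto_add_atTop_nat 1).eventually hpos] with k h2 h3
      have hE := HX.e2_nonneg (μ := μ) (f k)
      have h4 : HX.e2 μ (f k) ^ 2 ≤ 1 / 81 := by nlinarith
      have h5 : ∀ x, |f (k + 1) x - 1| ≤ 9 * HX.e2 μ (f k) ^ 2 := by
        intro x
        rw [← hmk]
        exact HX.mk_eta (hpd k) (HX.cnv4_e2 (hpd k)) (by linarith) x
      have h6 : HX.Near μ (f (k + 1)) (9 * HX.e2 μ (f k) ^ 2) :=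
        ⟨(hpd _).cont, hcls _, (hpd _).nonneg, (hpd _).int, h5, by linarith⟩
      have h7 := HX.conf_bounds (tk (k + 1)) h6 h3
      have h8 : 0 < Real.sqrt (HX.e2 μ (f (k + 1))) := Real.sqrt_pos.2 h3
      rw [div_sub_one h8.ne', abs_div, abs_of_pos h8]
      exact div_le_div_of_nonneg_right h7 h8.le
    have hr : Tendsto (fun k : ℕ => c (k + 1) / Real.sqrt (HX.e2 μ (f (k + 1)))) atTop (𝓝 1) := by
      have h1 : Tendsto (fun k : ℕ => c (k + 1) / Real.sqrt (HX.e2 μ (f (k + 1))) - 1) atTop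
          (𝓝 0) := squeeze_zero_norm' (hb.mono fun k hk => by rw [Real.norm_eq_abs]; exact hk) hqz
      have h2 := h1.add_const 1
      simpa using h2
    -- the conclusion
    rw [← tendsto_add_atTop_iff_nat 1]
    have h1 : Tendsto (fun k : ℕ => a (k + 1) -
        Real.log (c (k + 1) / Real.sqrt (HX.e2 μ (f (k + 1)))) / 4 ^ (k + 1)) atTop
          (𝓝 (s - 0)) := by
      refine ((tendsto_add_atTop_iff_nat 1).2 he).sub ?_
      have h2 : Tendsto (fun k : ℕ => Real.log (c (k + 1) / Real.sqrt (HX.e2 μ (f (k + 1)))))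
          atTop (𝓝 0) := by
        have h3 := (Real.continuousAt_log one_ne_zero).tendsto.comp hr
        rwa [Real.log_one] at h3
      exact h2.div_atTop (hpow.comp (tendsto_add_atTop_nat 1))
    rw [sub_zero] at h1
    refine h1.congr' ?_
    have h2 := hr.eventually (lt_mem_nhds (show (1 : ℝ) / 2 < 1 by norm_num))
    filter_upwards [h2, (tendsto_add_atTop_nat 1).eventually hpos,
      (tendsto_add_atTop_nat 1).eventually hexp] with k h3 h4 h5
    have h6 : 0 < Real.sqrt (HX.e2 μ (f (k + 1))) := Real.sqrt_pos.2 h4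
    have h7 : 0 < c (k + 1) := by
      have h8 : 0 < c (k + 1) / Real.sqrt (HX.e2 μ (f (k + 1))) := by linarith
      exact (div_pos_iff_of_pos_right h6).1 h8
    have h8 : Real.log (c (k + 1) / Real.sqrt (HX.e2 μ (f (k + 1)))) =
        Real.log (c (k + 1)) + 4 ^ (k + 1) * a (k + 1) := by
      rw [Real.log_div h7.ne' h6.ne', Real.log_sqrt h4.le]
      have h9 : a (k + 1) = -Real.log (HX.e2 μ (f (k + 1))) / (2 * 4 ^ (k + 1)) := by
        rw [ha]
      rw [h9]
      field_simp
      ring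
    rw [h8]
    have h9 : (4 : ℝ) ^ (k + 1) ≠ 0 := by positivity
    field_simp
    ring
  refine key.congr fun k => ?_
  have e : c k = largest μ (loopInf (SW μ w) k) := by
    have h1 : loopInf (SW μ w) k = fun χ => li μ (f k) (nr μ (f k) 0 fun U => χ (hol sq U ())) := by
      funext χ
      rw [loopInf_SW t.pd t.cls, hfk]
    rw [h1]
    rfl
  rw [e]

end

end Pool.Agent.T2H04.YM
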