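import Mathlib
import Pool.Agent.T2H04.HY.Lat
import Pool.Agent.T2H04.HY.Lat3
import Pool.Agent.T2H04.HY.RgT5
import Pool.Agent.T2H04.YM.Lat4

/-!
# Hierarchical Yang-Mills theory in four dimensions: the main theorem
-/

open MeasureTheory Matrix Filter
open scoped Matrix.Norms.Frobenius Topology
open Pool.Agent.T2H03.HX (Cx sq Bx hol blkL blks pos ex Obs)
open Pool.Agent.T2H04.HY (URep lieN SG CA PolAct wa tau Quartic shift)

namespace Pool.Agent.T2H04.YM

open Pool.Agent.T2H04 Pool.Agent.T2H03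

set_option linter.unusedSectionVars false

noncomputable section

/-! ### comparison with the library -/

section aux

theorem sct {G : Type} [Group G] [TopologicalSpace G] [CompactSpace G] {N : ℕ} (R : URep G N) :
    SecondCountableTopology G := by
  have h1 : SecondCountableTopology (Matrix (Fin N) (Fin N) ℂ) :=
    inferInstanceAs (SecondCountableTopology (Fin N → Fin N → ℂ))
  exact (R.cont.isClosedEmbedding R.inj).isEmbedding.secondCountableTopology

variable {G : Type} [Group G] [TopologicalSpace G] [IsTopologicalGroup G] [CompactSpace G]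
  [SecondCountableTopology G] [MeasurableSpace G] [BorelSpace G] {N : ℕ} (R : URep G N)
  (μ : Measure G) [μ.IsHaarMeasure] [IsProbabilityMeasure μ]

theorem boltz_ne {V : G → ℝ} (hV : Continuous V) (β : ℝ) : (∫ y, boltz V β y ∂μ)⁻¹ ≠ 0 := by
  have he : Continuous fun x : G => Real.exp (-(β * V x)) := by fun_prop
  have hZ : 0 < ∫ y, Real.exp (-(β * V y)) ∂μ := by
    exact Continuous.integral_pos_of_hasCompactSupport_nonneg_nonzero (x := (1 : G)) he
      (HasCompactSupport.of_compactSpace _) (fun y => (Real.exp_pos _).le) (Real.exp_pos _).ne'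
  exact inv_ne_zero hZ.ne'

theorem bw_boltz (V : G → ℝ) (β : ℝ) :
    HY.bw μ V β = fun x => (∫ y, boltz V β y ∂μ)⁻¹ * boltz V β x := by
  funext x
  unfold HY.bw boltz
  rw [div_eq_inv_mul]

theorem ex_bw {V : G → ℝ} (hV : Continuous V) (β : ℝ) (Y : Cx) (A : (Y.E → G) → ℝ) :
    ex μ Y (HY.bw μ V β) A = ex μ Y (boltz V β) A := by
  rw [bw_boltz]
  exact HX.ex_scale μ Y _ (boltz_ne μ hV β) A

theorem loopMean_pd {w : G → ℝ} (hw : HY.PD μ w) (hc : ∀ x y, w (y * x * y⁻¹) = w x)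
    (q : ℕ) {χ : G → ℝ} (hχ : Continuous χ) :
    loopMean μ w q χ = ∫ x, χ x * (HY.mk μ)^[q] w x ∂μ := by
  exact HY.loopMean_pd μ hw hc q hχ

theorem loopMean_bw {V : G → ℝ} (hV : Continuous V) (β : ℝ) (q : ℕ) (χ : G → ℝ) :
    loopMean μ (boltz V β) q χ = loopMean μ (HY.bw μ V β) q χ :=
  (ex_bw μ hV β _ _).symm

theorem coupling_pd (n : ℕ) {w : G → ℝ} (hw : HY.PD μ w) (hc : ∀ x y, w (y * x * y⁻¹) = w x)
    (q : ℕ) : coupling μ R n w q = HY.gsq μ R n ((HY.mk μ)^[q] w) := by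
  have h1 : loopMean μ w q (wa R) = ∫ x, wa R x * (HY.mk μ)^[q] w x ∂μ :=
    loopMean_pd μ hw hc q (χ := wa R) (HY.wa_cont R)
  unfold coupling HY.gsq
  rw [h1]

theorem coupling_boltz (n : ℕ) {V : G → ℝ} (hV : PolAct R V) (β : ℝ) (q : ℕ) :
    coupling μ R n (boltz V β) q = HY.gsq μ R n ((HY.mk μ)^[q] (HY.bw μ V β)) := by
  rw [← coupling_pd R μ n (HY.bw_pd μ hV.cont' β) (HY.bw_cls μ hV.cls β) q]
  unfold coupling
  rw [loopMean_bw μ hV.cont']

theorem pd_one : HY.PD μ (fun _ : G => (1 : ℝ)) :=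
  ⟨continuous_const, fun _ => zero_le_one, by simp⟩

theorem coupling_one (n : ℕ) : coupling μ R n (fun _ => 1) 0 = HY.gsq μ R n (fun _ => 1) :=
  coupling_pd R μ n (pd_one μ) (fun _ _ => rfl) 0

theorem e2_pos {w : G → ℝ} {s : ℝ} (hw : HY.PD μ w) (hs : 0 < s) (h : HY.Ten μ w s) (q : ℕ) :
    0 < HY.e2 μ ((HY.mk μ)^[q] w) := by
  have h0 : ∀ f : G → ℝ, 0 ≤ HY.e2 μ f := fun f => integral_nonneg fun _ => sq_nonneg _
  refine (h0 _).lt_of_ne fun he => ?_
  have hpd : HY.PD μ ((HY.mk μ)^[q] w) := HY.Asm.iter_pd μ hw q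
  have hone : (HY.mk μ)^[q] w = fun _ => 1 := by
    have hc : Continuous fun x => ((HY.mk μ)^[q] w x - 1) ^ 2 :=
      (hpd.cont.sub continuous_const).pow 2
    have h1 : (fun x => ((HY.mk μ)^[q] w x - 1) ^ 2) = fun _ => 0 := by
      have h2 := (integral_eq_zero_iff_of_nonneg (μ := μ) (f := fun x =>
        ((HY.mk μ)^[q] w x - 1) ^ 2) (fun _ => sq_nonneg _)
        (HY.integrable_cont μ hc)).1 he.symm
      exact (Continuous.ae_eq_iff_eq μ hc continuous_const).1 h2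
    funext x
    have h2 := congrFun h1 x
    have h3 := pow_eq_zero_iff two_ne_zero |>.1 h2
    linarith
  have hfix : ∀ k, (HY.mk μ)^[q + k] w = fun _ => 1 := by
    intro k
    rw [add_comm, Function.iterate_add_apply, hone]
    induction k with
    | zero => rfl
    | succ k ih =>
      rw [Function.iterate_succ_apply', ih]
      funext x
      unfold HY.mk HY.cnv4 HY.cnv
      simp
  have h1 : Tendsto (fun k : ℕ => -(Real.log (HY.e2 μ ((HY.mk μ)^[k] w))) / (2 * 4 ^ k)) atTop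
      (𝓝 0) := by
    refine tendsto_const_nhds.congr' ?_
    filter_upwards [eventually_ge_atTop q] with k hk
    obtain ⟨i, rfl⟩ := Nat.exists_eq_add_of_le hk
    rw [hfix]
    unfold HY.e2
    simp
  exact hs.ne' (tendsto_nhds_unique h h1)

theorem ten_of {w : G → ℝ} {s : ℝ} (hw : HY.PD μ w) (hc : ∀ x y, w (y * x * y⁻¹) = w x)
    (hs : 0 < s) (h : HY.Ten μ w s) : Tension μ (loopMean μ w) s := by
  refine h.congr fun q => ?_
  have h1 : largest μ (loopMean μ w q) = HY.maxLoop μ w q := rfl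
  rw [h1, HY.maxLoop_eq μ hw hc q (e2_pos μ hw hs h q), Real.log_sqrt (e2_pos μ hw hs h q).le]
  field_simp

theorem ten_boltz {V : G → ℝ} (hV : PolAct R V) {β s : ℝ} (hs : 0 < s)
    (h : HY.Ten μ (HY.bw μ V β) s) : Tension μ (loopMean μ (boltz V β)) s := by
  have h1 := ten_of μ (HY.bw_pd μ hV.cont' β) (HY.bw_cls μ hV.cls β) hs h
  unfold Tension at *
  refine h1.congr fun q => ?_
  have e : loopMean μ (HY.bw μ V β) q = loopMean μ (boltz V β) q := by
    funext χ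
    rw [loopMean_bw μ hV.cont']
  rw [e]

variable {R} in
/-- the lattice theories are massive and confining for all couplings -/
theorem lat_massive {n : ℕ} {X : Fin n → Matrix (Fin N) (Fin N) ℂ} (h : SG R n X)
    {V : G → ℝ} (hV : PolAct R V) {β : ℝ} {s : ℝ} (hs0 : 0 < s)
    (hT : HY.Ten μ (HY.bw μ V β) s) : ∃ SV C c, 0 < C ∧ 0 < c ∧ Massive μ (boltz V β) SV C c ∧
      Tension μ (loopInf SV) s := by
  have hs := HY.blk_simple R h.conn h.nonab h.irred
  have hVc := hV.cont'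
  have hpd := HY.bw_pd μ hVc β
  have hpos := HY.bw_pos μ hVc β
  have hcls := HY.bw_cls μ hV.cls β
  obtain ⟨Λ, hΛ⟩ := HY.bw_lip μ hV β
  obtain ⟨C, σ, hC, hσ, hup⟩ := HY.Asm.upper hs.conn hpd hpos hcls hΛ
  have hD := HX.DD_pos hC.le hσ
  have t : HX.Tail μ (HY.bw μ V β) C σ 0 := by
    refine ⟨hpd, hcls, hC.le, hσ, fun i _ x => ?_⟩
    rw [zero_add, zpow_natCast]
    exact hup i x
  have hpi : ∀ i x, 0 < (HY.mk μ)^[i] (HY.bw μ V β) x := by
    intro i
    induction i with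
    | zero => exact hpos
    | succ i ih =>
      intro x
      rw [Function.iterate_succ_apply']
      have := HY.Asm.mk_pos (HY.Asm.iter_pd μ hpd i) (ih 1) (ih 1) (ih 1) (ih x)
      simpa using this
  have hM := massive_of t hpos hpi (C' := 4 * HX.DD C σ + C) (c := σ) le_rfl (by simp)
  refine ⟨SW μ (HY.bw μ V β), 4 * HX.DD C σ + C, σ, by positivity, hσ, ?_, conf_fwd t hs0 hT⟩
  rw [bw_boltz] at hM ⊢
  exact massive_scale (boltz_ne μ hVc β) hM

variable {R} in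
theorem limit_of {n : ℕ} {X : Fin n → Matrix (Fin N) (Fin N) ℂ} (h : SG R n X)
    {κ₁ : ℝ} {F : ℝ → G → ℝ} {σ : ℝ → ℝ} (H : HY.CT μ R n (CA X) F σ)
    {C c : ℝ} (hC : 0 < C) (hc : 0 < c)
    (hup : ∀ s : ℝ, 0 ≤ s → ∀ x, |F s x - 1| ≤ C * Real.exp (-(c * 4 ^ s)))
    {V : G → ℝ} (hV : PolAct R V) {δ : ℝ} {σV : ℝ → ℝ}
    (hσV : ∀ β, 0 < β → 0 < σV β ∧ (∀ q, 0 < HY.e2 μ ((HY.mk μ)^[q] (HY.bw μ V β))) ∧
      HY.Ten μ (HY.bw μ V β) (σV β)) (hU : HY.UVS μ R n (CA X) κ₁ F σ V δ σV) :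
    Limit μ R n (CA X) κ₁ F (fun s => SW μ (F s)) σ V δ σV := by
  refine ⟨fun β hβ => ⟨(hσV β hβ).1, ten_boltz R μ hV (hσV β hβ).1 (hσV β hβ).2.2⟩,
    fun β hβ => lat_massive μ h hV (hσV β hβ).1 (hσV β hβ).2.2, hU.sc, ?_, ?_, ?_, ?_⟩
  · refine (HY.UpU.all_scales μ h H hV hU).congr fun p => ?_
    rw [coupling_boltz R μ n hV, coupling_pd R μ n (H.pd _) (H.cls _) 0, Function.iterate_zero,
      id_eq]
  · intro β k s h1 h2 h3 X m A hA
    have h := HX.uv_limit μ (w := fun j => HY.bw μ V (β j)) (N := k)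
      (fun j => (HY.bw_pd μ hV.cont' _).cont)
      (fun j => HY.bw_pos μ hV.cont' _) (fun j => HY.bw_cls μ hV.cls _) (H.pd s).cont
      (H.pos s) (hU.lim β k s h1 h2 h3) X m hA
    refine h.congr fun j => ?_
    exact ex_bw μ hV.cont' _ _ _
  · intro β k s h1 h2 h3 m A hA x
    have h := HY.UpU.lat_joint H.pd H.pos H.cls H.step hC hc hup s (fun j => HY.bw μ V (β j)) k
      (fun j => HY.bw_pd μ hV.cont' _) (fun j => HY.bw_cls μ hV.cls _) (hU.lim β k s h1 h2 h3)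
      m A hA x
    unfold HY.UpU.SI at h
    rw [← HY.UpU.hiter H.step] at h
    refine h.congr fun p => ?_
    exact ex_bw μ hV.cont' _ _ _
  · intro κ s h1 h2 h3 β k h4 h5 h6
    rw [coupling_pd R μ n (H.pd s) (H.cls s) 0, Function.iterate_zero, id_eq] at h3
    simp only [coupling_boltz R μ n hV] at h6
    exact hU.tune κ s h1 h2 h3 β k h4 h5 h6

end aux

open HY in
/-- **Hierarchical Yang-Mills theory.** -/
theorem main {G : Type} [Group G] [TopologicalSpace G] [IsTopologicalGroup G] [CompactSpace G]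
    [MeasurableSpace G] [BorelSpace G] (μ : Measure G) [μ.IsHaarMeasure] [IsProbabilityMeasure μ]
    {N n : ℕ} (R : URep G N) (X : Fin n → Matrix (Fin N) (Fin N) ℂ) (h : SG R n X) :
    ∃ (f : ℝ → G → ℝ) (S : ℝ → (n : ℕ) → (((Bx n).E → G) → ℝ) → ℝ) (σ : ℝ → ℝ) (κ₁ : ℝ),
      0 < κ₁ ∧ κ₁ < coupling μ R n (fun _ => 1) 0 ∧
      Theory μ R n (CA X) f S ∧ Confining μ R f S σ ∧
      ∀ V : G → ℝ, PolAct R V → ∃ (V4 : Matrix (Fin N) (Fin N) ℂ → ℝ) (σV : ℝ → ℝ),
        Quartic R V V4 ∧ Limit μ R n (CA X) κ₁ f S σ V (shift X V4) σV := by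
  have := sct R
  obtain ⟨F, σ, κ₁, hκ₁, hκ₁1, H, HV⟩ := rg_main3 μ h
  obtain ⟨C, c, hC, hc, hup⟩ := UpU.up_unif μ H
  have hD := HX.DD_pos hC.le hc
  have hit : ∀ (q : ℕ) (s : ℝ), (HY.mk μ)^[q] (F s) = F (s + q) := fun q s =>
    UpU.hiter H.step q s
  have t := UpU.tail H.pd H.cls H.step hC hc hup
  have hcoup : ∀ s, coupling μ R n (F s) 0 = HY.gsq μ R n (F s) := fun s =>
    coupling_pd R μ n (H.pd s) (H.cls s) 0
  refine ⟨F, fun s => SW μ (F s), σ, κ₁, hκ₁, ?_, ?_, ?_, ?_⟩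
  · rw [coupling_one]
    exact hκ₁1
  · refine ⟨fun s => (H.pd s).cont, H.pos, H.cls, H.inv, fun s => (H.pd s).int, ?_, ?_, H.lim,
      ⟨4 * HX.DD C c + C, c / 4, by positivity, by positivity, fun s => ?_⟩, ?_,
      ⟨C, c, hC, hc, hup⟩, ?_⟩
    · intro s X m q A hA
      have h := HX.ex_refs μ X m q (H.pd s) (H.cls s) hA
      rwa [hit] at h
    · intro s n A hA
      unfold SW
      rw [HX.nr_blk (H.pd s) (H.cls s), Function.iterate_succ_apply, H.step]
    · refine massive_of (t s) (H.pos s) (fun i x => by rw [hit]; exact H.pos _ x) le_rfl ?_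
      have h1 : s < ⌊s⌋ + 1 := Int.lt_floor_add_one s
      have h2 : (4 : ℝ) ^ s ≤ 4 ^ ((⌊s⌋ : ℝ) + 1) :=
        Real.rpow_le_rpow_of_exponent_le (by norm_num) h1.le
      rw [Real.rpow_add (by norm_num), Real.rpow_one, Real.rpow_intCast] at h2
      calc c / 4 * 4 ^ s ≤ c / 4 * ((4 : ℝ) ^ ⌊s⌋ * 4) :=
            mul_le_mul_of_nonneg_left h2 (by positivity)
        _ = c * 4 ^ ⌊s⌋ := by ring
    · obtain ⟨K, hK⟩ := H.run
      refine ⟨K, fun x hx => ?_⟩
      rw [hcoup]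
      exact hK x hx
    · intro κ h1 h2
      rw [coupling_one] at h2
      obtain ⟨s, hs⟩ := H.onto κ h1 h2
      exact ⟨s, by rw [hcoup]; exact hs⟩
  · refine ⟨H.spos, H.scont, H.sstep, fun s => ten_of μ (H.pd s) (H.cls s) (H.spos s) (H.ten s),
      fun s => ?_, fun s => ?_⟩
    · obtain ⟨C', c', hC', hc', hup'⟩ := H.up s
      refine conf_fwd (C := C') (σ := c') ⟨H.pd s, H.cls s, hC'.le, hc', fun i _ x => ?_⟩
        (H.spos s) (H.ten s)
      rw [hit, zero_add, zpow_natCast]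
      exact hup' i x
    · obtain ⟨t, ht, h⟩ := H.wl s
      refine ⟨t, ht, h.congr fun q => ?_⟩
      rw [loopMean_pd μ (H.pd s) (H.cls s) q (HY.tr_cont R), hit]
      rfl
  · intro V hV
    obtain ⟨V4, hV4, σV, hσV, hU⟩ := HV V hV
    exact ⟨V4, σV, hV4, limit_of μ h H hC hc hup hV hσV hU⟩

end

end Pool.Agent.T2H04.YM
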